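import Pool.Agent.H90.CS.Targets

/-!
# TH1: the primes `1 mod 4`, Chebyshev's lower bound
-/

set_option autoImplicit false

namespace Pool.Agent.H94.LCS

open Finset Pool.Agent.H90.CS Pool.Agent.H90.LC Pool.Agent.H44.MS

theorem chi_one {p : ℕ} (h : p % 4 = 1) : chi p = 1 := by
  unfold chi
  rw [ZMod.χ₄_nat_one_mod_four h]
  norm_num

theorem chi_eq {p : ℕ} (hp : p.Prime) (h2 : 2 < p) (h : ¬ p % 4 = 1) : chi p = -1 := by
  unfold chi
  have h1 : p % 2 = 1 := by
    rcases hp.eq_two_or_odd with e | e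
    · omega
    · exact e
  rw [ZMod.χ₄_nat_three_mod_four (by omega)]
  norm_num

theorem block {C : ℝ} {A : ℕ} (hA2 : 2 ≤ A) (hlogA : 8 * C + 1 ≤ Real.log A) (hC : 0 < C)
    (h1 : ∀ z x : ℕ, 2 ≤ z → z ≤ x →
      |∑ p ∈ Ioc z x, ic p.Prime / p - (Real.log (Real.log x) - Real.log (Real.log z))| ≤
        C / Real.log z ∧ |∑ p ∈ Ioc z x, ic p.Prime * chi p / p| ≤ C / Real.log z)
    (y : ℕ) (hyA : A ≤ y) (hy3 : 3 ≤ y) :
    (y : ℝ) / 4 ≤ ∑ p ∈ (Ioc y (A * y)).filter (fun p => p.Prime ∧ p % 4 = 1), Real.log p := by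
  have hA0 : (0 : ℝ) < A := by
    have : (2 : ℝ) ≤ A := by exact_mod_cast hA2
    linarith
  have hyR : (3 : ℝ) ≤ y := by exact_mod_cast hy3
  have hy0 : (0 : ℝ) < y := by linarith
  have hlogy : 0 < Real.log y := Real.log_pos (by linarith)
  have hlogAy : Real.log A ≤ Real.log y := Real.log_le_log hA0 (by exact_mod_cast hyA)
  obtain ⟨h2, h3⟩ := h1 y (A * y) (by omega) (Nat.le_mul_of_pos_left y (by omega))
  set S := (Ioc y (A * y)).filter (fun p => p.Prime ∧ p % 4 = 1) with hS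
  have e1 : ∑ p ∈ Ioc y (A * y), ic p.Prime / p + ∑ p ∈ Ioc y (A * y), ic p.Prime * chi p / p =
      2 * ∑ p ∈ S, 1 / (p : ℝ) := by
    rw [← sum_add_distrib, hS, sum_filter, mul_sum]
    refine sum_congr rfl fun p hp => ?_
    have hp2 : 2 < p := by
      have := (mem_Ioc.1 hp).1
      omega
    unfold ic
    by_cases hpp : p.Prime
    · by_cases h4 : p % 4 = 1
      · rw [if_pos hpp, if_pos ⟨hpp, h4⟩, chi_one h4]
        ring
      · rw [if_pos hpp, if_neg (fun h => h4 h.2), chi_eq hpp hp2 h4]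
        ring
    · rw [if_neg hpp, if_neg (fun h => hpp h.1)]
      ring
  have h4 : Real.log (Real.log ((A * y : ℕ) : ℝ)) - Real.log (Real.log y) - C / Real.log y ≤
      ∑ p ∈ Ioc y (A * y), ic p.Prime / p := by
    have := (abs_le.1 h2).1
    linarith
  have h5 : -(C / Real.log y) ≤ ∑ p ∈ Ioc y (A * y), ic p.Prime * chi p / p := (abs_le.1 h3).1
  have e2 : Real.log ((A * y : ℕ) : ℝ) = Real.log A + Real.log y := by
    push_cast
    rw [Real.log_mul hA0.ne' hy0.ne']
  have h6 : Real.log A / (2 * Real.log y) ≤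
      Real.log (Real.log ((A * y : ℕ) : ℝ)) - Real.log (Real.log y) := by
    rw [e2]
    have hlA : 0 < Real.log A := by linarith
    rw [← Real.log_div (by linarith) hlogy.ne']
    set t := (Real.log A + Real.log y) / Real.log y with ht
    have ht0 : 0 < t := by positivity
    have h7 : 1 - t⁻¹ ≤ Real.log t := by
      have := Real.add_one_le_exp (-Real.log t)
      rw [Real.exp_neg, Real.exp_log ht0] at this
      linarith
    refine le_trans ?_ h7
    have e3 : 1 - t⁻¹ = Real.log A / (Real.log A + Real.log y) := by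
      rw [ht, inv_div]
      have : Real.log A + Real.log y ≠ 0 := by positivity
      field_simp
      ring
    rw [e3]
    apply div_le_div_of_nonneg_left hlA.le (by positivity)
    linarith
  have h7 : (1 / 4 : ℝ) / Real.log y ≤ ∑ p ∈ S, 1 / (p : ℝ) := by
    have h8 : 2 * ∑ p ∈ S, 1 / (p : ℝ) ≥ Real.log A / (2 * Real.log y) - 2 * (C / Real.log y) := by
      rw [← e1]
      linarith
    have h9 : Real.log A / (2 * Real.log y) - 2 * (C / Real.log y) =
        (Real.log A / 2 - 2 * C) / Real.log y := by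
      field_simp
    rw [h9] at h8
    have h10 : (2 * (1 / 4) : ℝ) / Real.log y ≤ (Real.log A / 2 - 2 * C) / Real.log y := by
      apply div_le_div_of_nonneg_right _ hlogy.le
      linarith
    have h11 : (2 * (1 / 4) : ℝ) / Real.log y = 2 * ((1 / 4 : ℝ) / Real.log y) := by ring
    linarith
  have h8 : (y : ℝ) * Real.log y * ∑ p ∈ S, 1 / (p : ℝ) ≤ ∑ p ∈ S, Real.log p := by
    rw [mul_sum]
    refine sum_le_sum fun p hp => ?_
    rw [hS, mem_filter, mem_Ioc] at hp
    have hyp : (y : ℝ) ≤ p := by exact_mod_cast hp.1.1.le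
    have hp0 : (0 : ℝ) < p := hy0.trans_le hyp
    have hl : Real.log y ≤ Real.log p := Real.log_le_log hy0 hyp
    rw [mul_one_div, div_le_iff₀ hp0]
    have hl0 : 0 ≤ Real.log p := hlogy.le.trans hl
    calc (y : ℝ) * Real.log y ≤ p * Real.log p := by
          apply mul_le_mul hyp hl hlogy.le hp0.le
      _ = Real.log p * p := mul_comm _ _
  refine le_trans ?_ h8
  calc (y : ℝ) / 4 = (y : ℝ) * Real.log y * ((1 / 4 : ℝ) / Real.log y) := by
        field_simp
    _ ≤ (y : ℝ) * Real.log y * ∑ p ∈ S, 1 / (p : ℝ) :=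
        mul_le_mul_of_nonneg_left h7 (by positivity)

theorem pf_TH1 (hMER : T_MER) : T_TH1 := by
  obtain ⟨C, hC, h1⟩ := hMER
  obtain ⟨A, hA⟩ := exists_nat_ge (Real.exp (8 * C + 1))
  have hA' : Real.exp (8 * C + 1) ≤ (A : ℝ) := hA
  have hexp1 : (2 : ℝ) ≤ Real.exp (8 * C + 1) := by
    have := Real.add_one_le_exp (8 * C + 1)
    linarith
  have hA2 : 2 ≤ A := by exact_mod_cast hexp1.trans hA'
  have hA0 : (0 : ℝ) < A := by
    have : (2 : ℝ) ≤ A := by exact_mod_cast hA2
    linarith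
  have hlogA : 8 * C + 1 ≤ Real.log A := by
    rw [Real.le_log_iff_exp_le hA0]
    exact hA'
  refine ⟨1 / (8 * A), by positivity, fun R => ⟨A * (A + R + 3), fun X hX => ?_⟩⟩
  set y := X / A with hy
  have hy1 : A + R + 3 ≤ y := by
    rw [hy, Nat.le_div_iff_mul_le (by omega), mul_comm]
    exact hX
  have hAy : A * y ≤ X := Nat.mul_div_le X A
  have hXy : X ≤ 2 * A * y := by
    have h2 : X < A * (y + 1) := by
      rw [hy]
      exact Nat.lt_mul_div_succ X (by omega)
    have h3 : A * (y + 1) ≤ A * (2 * y) := Nat.mul_le_mul_left A (by omega)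
    calc X ≤ A * (2 * y) := (h2.le.trans h3)
      _ = 2 * A * y := by ring
  have h2 := block hA2 hlogA hC h1 y (by omega) (by omega)
  have h3 : ∑ p ∈ (Ioc y (A * y)).filter (fun p => p.Prime ∧ p % 4 = 1), Real.log p ≤
      ∑ p ∈ (Ioc R X).filter (fun p => p.Prime ∧ p % 4 = 1), Real.log p := by
    refine sum_le_sum_of_subset_of_nonneg ?_ ?_
    · intro p hp
      rw [mem_filter, mem_Ioc] at hp ⊢
      exact ⟨⟨by omega, hp.1.2.trans hAy⟩, hp.2⟩
    · intro p hp _
      rw [mem_filter] at hp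
      exact Real.log_nonneg (by exact_mod_cast hp.2.1.one_lt.le)
  refine le_trans ?_ (h2.trans h3)
  have hXy' : (X : ℝ) ≤ 2 * A * y := by exact_mod_cast hXy
  rw [one_div, inv_mul_le_iff₀ (by positivity)]
  linarith

end Pool.Agent.H94.LCS
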